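import Mathlib

open Matrix
open scoped ComplexOrder Kronecker ComplexConjugate

namespace Pool.Agent.Results.MP_2a866c_an.NotGeneralizedCLP

/-- The real vector space of hermitian complex matrices of size `n`. -/
abbrev Herm (n : ℕ) : Type := selfAdjoint (Matrix (Fin n) (Fin n) ℂ)

/-- The operator norm of a complex matrix (acting on Euclidean space). -/
noncomputable def opNorm {n : ℕ} (A : Matrix (Fin n) (Fin n) ℂ) : ℝ :=
  ‖Matrix.toEuclideanCLM (𝕜 := ℂ) A‖

/-- `Φ` maps the identity to the identity. -/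
def Unital {n k : ℕ} (Φ : Herm n →ₗ[ℝ] Herm k) : Prop := Φ 1 = 1

/-- `Φ` maps positive semidefinite matrices to positive semidefinite matrices. -/
def Positive {n k : ℕ} (Φ : Herm n →ₗ[ℝ] Herm k) : Prop :=
  ∀ X : Herm n, (X : Matrix (Fin n) (Fin n) ℂ).PosSemidef →
    (Φ X : Matrix (Fin k) (Fin k) ℂ).PosSemidef

/-- `Φ` preserves the operator norm. -/
def Isometric {n k : ℕ} (Φ : Herm n →ₗ[ℝ] Herm k) : Prop :=
  ∀ X : Herm n, opNorm (Φ X : Matrix (Fin k) (Fin k) ℂ) = opNorm (X : Matrix (Fin n) (Fin n) ℂ)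

/-- Index set of `ℂ^{n(α+β)+ζ} = (ℂⁿ ⊗ ℂ^α) ⊕ (ℂⁿ ⊗ ℂ^β) ⊕ ℂ^ζ`. -/
abbrev Idx (n α β ζ : ℕ) : Type := (Fin n × Fin α) ⊕ ((Fin n × Fin β) ⊕ Fin ζ)

/-- The vector `(h ⊗ h₁) ⊕ (conj h ⊗ h₂) ⊕ 0`. -/
def tensorVec {n α β ζ : ℕ} (h : Fin n → ℂ) (h₁ : Fin α → ℂ) (h₂ : Fin β → ℂ) :
    Idx n α β ζ → ℂ
  | Sum.inl p => h p.1 * h₁ p.2
  | Sum.inr (Sum.inl p) => conj (h p.1) * h₂ p.2
  | Sum.inr (Sum.inr _) => 0

/-- The block diagonal matrix `(X ⊗ I_α) ⊕ (Xᵗ ⊗ I_β) ⊕ Y`. -/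
def blockMat {n ζ : ℕ} (α β : ℕ) (X : Matrix (Fin n) (Fin n) ℂ) (Y : Matrix (Fin ζ) (Fin ζ) ℂ) :
    Matrix (Idx n α β ζ) (Idx n α β ζ) ℂ :=
  Matrix.fromBlocks (X ⊗ₖ (1 : Matrix (Fin α) (Fin α) ℂ)) 0 0
    (Matrix.fromBlocks (Xᵀ ⊗ₖ (1 : Matrix (Fin β) (Fin β) ℂ)) 0 0 Y)

/-- Generalized CLP isometries `Herm n → Herm k`: there are `α, β, ζ ≥ 0`, a unital positive linear
map `f : Herm n → Herm ζ`, a subspace `K` of `ℂ^{n(α+β)+ζ}` that meets, for every nonzero `h`,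
the set of all `(h ⊗ h₁) ⊕ (conj h ⊗ h₂) ⊕ 0` in a nonzero vector, and a linear isometry `V` with
range `K`, such that `Φ X = V* ((X ⊗ I_α) ⊕ (Xᵗ ⊗ I_β) ⊕ f X) V`. -/
def IsGeneralizedCLP {n k : ℕ} (Φ : Herm n →ₗ[ℝ] Herm k) : Prop :=
  ∃ (α β ζ : ℕ) (f : Herm n →ₗ[ℝ] Herm ζ) (K : Submodule ℂ (Idx n α β ζ → ℂ))
    (V : Matrix (Idx n α β ζ) (Fin k) ℂ),
    Unital f ∧ Positive f ∧
    (∀ h : Fin n → ℂ, h ≠ 0 → ∃ u ∈ K, u ≠ 0 ∧ ∃ (h₁ : Fin α → ℂ) (h₂ : Fin β → ℂ),
      u = tensorVec h h₁ h₂) ∧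
    Vᴴ * V = 1 ∧ LinearMap.range V.mulVecLin = K ∧
    ∀ X : Herm n, (Φ X : Matrix (Fin k) (Fin k) ℂ) =
      Vᴴ * blockMat α β (X : Matrix (Fin n) (Fin n) ℂ) (f X : Matrix (Fin ζ) (Fin ζ) ℂ) * V

/-! ### The map -/

/-- The matrix formula of the example. -/
noncomputable def phiM (X : Matrix (Fin 2) (Fin 2) ℂ) : Matrix (Fin 4) (Fin 4) ℂ :=
  !![(4 * X 0 0 + 3 * X 1 1) / 7, X 0 1 / 2, 0, 0;
     X 1 0 / 2, X 1 1, -(3 / 4) * X 0 1, 0;
     0, -(3 / 4) * X 1 0, X 0 0, X 0 1 / 2;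
     0, 0, X 1 0 / 2, (3 * X 0 0 + 4 * X 1 1) / 7]

theorem phiM_star (X : Matrix (Fin 2) (Fin 2) ℂ) (hX : Xᴴ = X) : (phiM X)ᴴ = phiM X := by
  have h00 : conj (X 0 0) = X 0 0 := by
    conv_rhs => rw [← hX]
    rfl
  have h11 : conj (X 1 1) = X 1 1 := by
    conv_rhs => rw [← hX]
    rfl
  have h01 : conj (X 0 1) = X 1 0 := by
    conv_rhs => rw [← hX]
    rfl
  have h10 : conj (X 1 0) = X 0 1 := by
    conv_rhs => rw [← hX]
    rfl
  ext i j
  fin_cases i <;> fin_cases j <;>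
    simp [phiM, Matrix.conjTranspose_apply, h00, h11, h01, h10]

/-- The example as a real linear map `Herm 2 → Herm 4`. -/
noncomputable def Phi : Herm 2 →ₗ[ℝ] Herm 4 where
  toFun X := ⟨phiM X, by
    rw [selfAdjoint.mem_iff, Matrix.star_eq_conjTranspose]
    exact phiM_star _ (by have := X.2; rwa [selfAdjoint.mem_iff, Matrix.star_eq_conjTranspose] at this)⟩
  map_add' X Y := by
    ext i j
    fin_cases i <;> fin_cases j <;> simp [phiM] <;> ring
  map_smul' r X := by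
    ext i j
    fin_cases i <;> fin_cases j <;> simp [phiM] <;> ring

theorem Phi_coe (X : Herm 2) : (Phi X : Matrix (Fin 4) (Fin 4) ℂ) = phiM X := rfl

theorem phi_unital : Unital Phi := by
  unfold Unital
  ext i j
  rw [Phi_coe]
  fin_cases i <;> fin_cases j <;> simp [phiM] <;> norm_num

/-! ### Order embedding -/

/-- The test vector attached to `k = (p, q)`. -/
noncomputable def wv (p q : ℂ) : Fin 4 → ℂ :=
  ![-7 * p ^ 2 * conj q, p * (8 * (p * conj p) + 6 * (q * conj q)),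
    q * (8 * (q * conj q) + 6 * (p * conj p)), -7 * conj p * q ^ 2]

theorem wv_form (X : Matrix (Fin 2) (Fin 2) ℂ) (p q : ℂ) :
    star (wv p q) ⬝ᵥ (phiM X *ᵥ wv p q) =
      (64 * (p * conj p) ^ 2 + 117 * (p * conj p) * (q * conj q) + 64 * (q * conj q) ^ 2) *
        (star ![-conj q, conj p] ⬝ᵥ (X *ᵥ ![-conj q, conj p])) := by
  simp [wv, phiM, dotProduct, mulVec, Fin.sum_univ_four, Fin.sum_univ_two, map_ofNat]
  ring

theorem posSemidef_of_phiM {X : Matrix (Fin 2) (Fin 2) ℂ} (hX : X.IsHermitian)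
    (h : (phiM X).PosSemidef) : X.PosSemidef := by
  refine PosSemidef.of_dotProduct_mulVec_nonneg hX fun u => ?_
  have hu : u = ![-conj (-conj (u 0)), conj (conj (u 1))] := by
    ext i; fin_cases i <;> simp
  by_cases h0 : u = 0
  · subst h0; simp
  have key := wv_form X (conj (u 1)) (-conj (u 0))
  rw [← hu] at key
  have h1 := h.dotProduct_mulVec_nonneg (wv (conj (u 1)) (-conj (u 0)))
  rw [key] at h1
  set s : ℝ := 64 * (Complex.normSq (u 1)) ^ 2 +
    117 * Complex.normSq (u 1) * Complex.normSq (u 0) + 64 * (Complex.normSq (u 0)) ^ 2 with hs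
  have hs0 : 0 < s := by
    have a0 := Complex.normSq_nonneg (u 0)
    have a1 := Complex.normSq_nonneg (u 1)
    have : 0 < Complex.normSq (u 0) ∨ 0 < Complex.normSq (u 1) := by
      by_contra hcon
      push Not at hcon
      apply h0
      have b0 : u 0 = 0 := Complex.normSq_eq_zero.1 (le_antisymm hcon.1 a0)
      have b1 : u 1 = 0 := Complex.normSq_eq_zero.1 (le_antisymm hcon.2 a1)
      ext i; fin_cases i <;> simp [b0, b1]
    rcases this with h | h <;> positivity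
  have e1 : (64 * (conj (u 1) * conj (conj (u 1))) ^ 2 +
      117 * (conj (u 1) * conj (conj (u 1))) * (-conj (u 0) * conj (-conj (u 0))) +
      64 * (-conj (u 0) * conj (-conj (u 0))) ^ 2) = ((s : ℝ) : ℂ) := by
    rw [hs]
    push_cast
    simp only [Complex.normSq_eq_conj_mul_self, map_neg, Complex.conj_conj]
    ring
  rw [e1] at h1
  rw [Complex.nonneg_iff] at h1 ⊢
  rw [Complex.re_ofReal_mul, Complex.im_ofReal_mul] at h1
  exact ⟨nonneg_of_mul_nonneg_right h1.1 hs0,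
    (mul_eq_zero.1 h1.2.symm).resolve_left hs0.ne' |>.symm⟩

/-- The rank one matrix `k k*`. -/
def rk (p q : ℂ) : Matrix (Fin 2) (Fin 2) ℂ := !![p * conj p, p * conj q; q * conj p, q * conj q]

theorem rk_herm (p q : ℂ) : (rk p q)ᴴ = rk p q := by
  ext i j
  fin_cases i <;> fin_cases j <;> simp [rk, Matrix.conjTranspose_apply, mul_comm]

theorem phiM_rk (p q : ℂ) : (phiM (rk p q)).PosSemidef := by
  refine PosSemidef.of_dotProduct_mulVec_nonneg (phiM_star _ (rk_herm p q)) fun w => ?_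
  by_cases h0 : p = 0 ∧ q = 0
  · obtain ⟨rfl, rfl⟩ := h0
    have : phiM (rk 0 0) = 0 := by
      ext i j; fin_cases i <;> fin_cases j <;> simp [phiM, rk]
    rw [this]; simp
  have a0 := Complex.normSq_nonneg p
  have a1 := Complex.normSq_nonneg q
  have hpos : 0 < Complex.normSq p ∨ 0 < Complex.normSq q := by
    by_contra hcon
    push Not at hcon
    exact h0 ⟨Complex.normSq_eq_zero.1 (le_antisymm hcon.1 a0),
      Complex.normSq_eq_zero.1 (le_antisymm hcon.2 a1)⟩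
  obtain ⟨P, hP⟩ : ∃ P : ℝ, P = 4 * Complex.normSq p + 3 * Complex.normSq q := ⟨_, rfl⟩
  obtain ⟨Q, hQ⟩ : ∃ Q : ℝ, Q = 3 * Complex.normSq p + 4 * Complex.normSq q := ⟨_, rfl⟩
  have P0 : 0 < P := by rw [hP]; rcases hpos with h | h <;> positivity
  have Q0 : 0 < Q := by rw [hQ]; rcases hpos with h | h <;> positivity
  have hPc : (P : ℂ) = 4 * (p * conj p) + 3 * (q * conj q) := by
    rw [hP]; push_cast; simp only [Complex.normSq_eq_conj_mul_self]; ring
  have hQc : (Q : ℂ) = 3 * (p * conj p) + 4 * (q * conj q) := by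
    rw [hQ]; push_cast; simp only [Complex.normSq_eq_conj_mul_self]; ring
  have P1 : (P : ℂ) ≠ 0 := by exact_mod_cast P0.ne'
  have Q1 : (Q : ℂ) ≠ 0 := by exact_mod_cast Q0.ne'
  have key : star w ⬝ᵥ (phiM (rk p q) *ᵥ w) =
      ((7 / P * Complex.normSq (P / 7 * w 0 + p * conj q * w 1 / 2) +
        7 / Q * Complex.normSq (Q / 7 * w 3 + q * conj p * w 2 / 2) +
        3 / (4 * P * Q) * Complex.normSq (Q * q * w 1 - P * p * w 2) : ℝ) : ℂ) := by
    push_cast
    simp only [Complex.normSq_eq_conj_mul_self]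
    simp [phiM, rk, dotProduct, mulVec, Fin.sum_univ_four, map_ofNat]
    field_simp
    rw [hPc, hQc]
    ring
  rw [key, Complex.zero_le_real]
  exact add_nonneg (add_nonneg (mul_nonneg (by positivity) (Complex.normSq_nonneg _))
    (mul_nonneg (by positivity) (Complex.normSq_nonneg _)))
    (mul_nonneg (by positivity) (Complex.normSq_nonneg _))

theorem phiM_add (X Y : Matrix (Fin 2) (Fin 2) ℂ) : phiM (X + Y) = phiM X + phiM Y := by
  ext i j
  fin_cases i <;> fin_cases j <;> simp [phiM] <;> ring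

theorem phiM_sub (X Y : Matrix (Fin 2) (Fin 2) ℂ) : phiM (X - Y) = phiM X - phiM Y := by
  ext i j
  fin_cases i <;> fin_cases j <;> simp [phiM] <;> ring

theorem phiM_smul_one (r : ℝ) : phiM (r • (1 : Matrix (Fin 2) (Fin 2) ℂ)) = r • 1 := by
  ext i j
  fin_cases i <;> fin_cases j <;> simp [phiM] <;> ring

open scoped MatrixOrder in
theorem phiM_posSemidef {X : Matrix (Fin 2) (Fin 2) ℂ} (h : X.PosSemidef) :
    (phiM X).PosSemidef := by
  obtain ⟨B, rfl⟩ := CStarAlgebra.nonneg_iff_eq_star_mul_self.1 h.nonneg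
  have e : star B * B = rk (conj (B 0 0)) (conj (B 0 1)) + rk (conj (B 1 0)) (conj (B 1 1)) := by
    ext i j
    fin_cases i <;> fin_cases j <;>
      simp [rk, Matrix.mul_apply, Fin.sum_univ_two, Matrix.star_eq_conjTranspose,
        Matrix.conjTranspose_apply]
  rw [e, phiM_add]
  exact (phiM_rk _ _).add (phiM_rk _ _)

/-- Norm bound of a hermitian matrix in terms of the order. -/
theorem opNorm_le_iff {n : ℕ} {A : Matrix (Fin n) (Fin n) ℂ} (hA : A.IsHermitian) {r : ℝ}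
    (hr : 0 ≤ r) :
    opNorm A ≤ r ↔ (r • (1 : Matrix (Fin n) (Fin n) ℂ) - A).PosSemidef ∧
      (r • (1 : Matrix (Fin n) (Fin n) ℂ) + A).PosSemidef := by
  have hsym : (Matrix.toEuclideanCLM (𝕜 := ℂ) A : EuclideanSpace ℂ (Fin n) →ₗ[ℂ]
      EuclideanSpace ℂ (Fin n)).IsSymmetric := by
    rw [Matrix.coe_toEuclideanCLM_eq_toEuclideanLin]
    exact Matrix.isSymmetric_toEuclideanLin_iff.2 hA
  have hin : ∀ x : EuclideanSpace ℂ (Fin n),
      (Matrix.toEuclideanCLM (𝕜 := ℂ) A).reApplyInnerSelf x =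
        (star (WithLp.ofLp x) ⬝ᵥ (A *ᵥ WithLp.ofLp x)).re := by
    intro x
    rw [ContinuousLinearMap.reApplyInnerSelf_apply, EuclideanSpace.inner_eq_star_dotProduct,
      Matrix.ofLp_toEuclideanCLM]
    have : WithLp.ofLp x ⬝ᵥ star (A *ᵥ WithLp.ofLp x) =
        conj (star (WithLp.ofLp x) ⬝ᵥ (A *ᵥ WithLp.ofLp x)) := by
      simp [dotProduct, map_sum]
    rw [this]
    simp
  have hnorm : ∀ x : EuclideanSpace ℂ (Fin n), ‖x‖ ^ 2 =
      (star (WithLp.ofLp x) ⬝ᵥ (WithLp.ofLp x)).re := by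
    intro x
    rw [← @inner_self_eq_norm_sq ℂ, EuclideanSpace.inner_eq_star_dotProduct, dotProduct_comm]
    rfl
  have hq : ∀ x : EuclideanSpace ℂ (Fin n), ∀ s : ℝ,
      (star (WithLp.ofLp x) ⬝ᵥ ((r • (1 : Matrix (Fin n) (Fin n) ℂ) + (s : ℂ) • A) *ᵥ
        WithLp.ofLp x)).re =
      r * ‖x‖ ^ 2 + s * (Matrix.toEuclideanCLM (𝕜 := ℂ) A).reApplyInnerSelf x := by
    intro x s
    rw [hin, hnorm, Matrix.add_mulVec, Matrix.smul_mulVec, Matrix.smul_mulVec, dotProduct_add,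
      Matrix.one_mulVec, dotProduct_smul, dotProduct_smul]
    simp
  have hps : ∀ s : ℝ, (r • (1 : Matrix (Fin n) (Fin n) ℂ) + (s : ℂ) • A).PosSemidef ↔
      ∀ x : EuclideanSpace ℂ (Fin n),
        0 ≤ r * ‖x‖ ^ 2 + s * (Matrix.toEuclideanCLM (𝕜 := ℂ) A).reApplyInnerSelf x := by
    intro s
    have hH : (r • (1 : Matrix (Fin n) (Fin n) ℂ) + (s : ℂ) • A).IsHermitian := by
      unfold Matrix.IsHermitian
      rw [Matrix.conjTranspose_add, Matrix.conjTranspose_smul, Matrix.conjTranspose_smul,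
        Matrix.conjTranspose_one, hA.eq]
      simp
    constructor
    · intro h x
      have := h.dotProduct_mulVec_nonneg (WithLp.ofLp x)
      rw [← hq]
      exact (Complex.nonneg_iff.1 this).1
    · intro h
      refine PosSemidef.of_dotProduct_mulVec_nonneg hH fun x => ?_
      rw [Complex.nonneg_iff]
      refine ⟨?_, ?_⟩
      · have := h (WithLp.toLp 2 x)
        rw [← hq] at this
        exact this
      · exact (hH.im_star_dotProduct_mulVec_self x).symm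
  have e1 : r • (1 : Matrix (Fin n) (Fin n) ℂ) - A =
      r • (1 : Matrix (Fin n) (Fin n) ℂ) + (((-1 : ℝ) : ℝ) : ℂ) • A := by
    simp [sub_eq_add_neg]
  have e2 : r • (1 : Matrix (Fin n) (Fin n) ℂ) + A =
      r • (1 : Matrix (Fin n) (Fin n) ℂ) + (((1 : ℝ) : ℝ) : ℂ) • A := by
    simp
  rw [e1, e2, hps, hps]
  unfold opNorm
  constructor
  · intro h
    have key : ∀ x : EuclideanSpace ℂ (Fin n),
        |(Matrix.toEuclideanCLM (𝕜 := ℂ) A).reApplyInnerSelf x| ≤ r * ‖x‖ ^ 2 := by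
      intro x
      rw [ContinuousLinearMap.reApplyInnerSelf_apply]
      calc |RCLike.re (inner ℂ (Matrix.toEuclideanCLM (𝕜 := ℂ) A x) x)|
          ≤ ‖(inner ℂ (Matrix.toEuclideanCLM (𝕜 := ℂ) A x) x : ℂ)‖ := RCLike.abs_re_le_norm _
        _ ≤ ‖Matrix.toEuclideanCLM (𝕜 := ℂ) A x‖ * ‖x‖ := norm_inner_le_norm _ _
        _ ≤ (‖Matrix.toEuclideanCLM (𝕜 := ℂ) A‖ * ‖x‖) * ‖x‖ := by
            gcongr
            exact ContinuousLinearMap.le_opNorm _ _
        _ ≤ (r * ‖x‖) * ‖x‖ := by gcongr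
        _ = r * ‖x‖ ^ 2 := by ring
    refine ⟨fun x => ?_, fun x => ?_⟩
    · have := (abs_le.1 (key x)).2
      linarith
    · have := (abs_le.1 (key x)).1
      linarith
  · rintro ⟨h1, h2⟩
    rw [ContinuousLinearMap.norm_eq_iSup_rayleighQuotient _ hsym]
    refine ciSup_le fun x => ?_
    by_cases hx : x = 0
    · subst hx; simpa [ContinuousLinearMap.rayleighQuotient] using hr
    · have hx2 : 0 < ‖x‖ ^ 2 := by positivity
      rw [ContinuousLinearMap.rayleighQuotient, abs_div, abs_of_pos hx2, div_le_iff₀ hx2, abs_le]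
      have a1 := h1 x
      have a2 := h2 x
      constructor <;> linarith

theorem opNorm_nonneg {n : ℕ} (A : Matrix (Fin n) (Fin n) ℂ) : 0 ≤ opNorm A := norm_nonneg _

theorem phi_positive : Positive Phi := fun _ hX => phiM_posSemidef hX

theorem herm_isHermitian {n : ℕ} (X : Herm n) : (X : Matrix (Fin n) (Fin n) ℂ).IsHermitian := by
  have := X.2
  rwa [selfAdjoint.mem_iff, Matrix.star_eq_conjTranspose] at this

theorem phi_isometric : Isometric Phi := by
  intro X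
  have hX := herm_isHermitian X
  have hP : (phiM (X : Matrix (Fin 2) (Fin 2) ℂ)).IsHermitian := phiM_star _ hX
  rw [Phi_coe]
  have key : ∀ r : ℝ, 0 ≤ r → (opNorm (phiM (X : Matrix (Fin 2) (Fin 2) ℂ)) ≤ r ↔
      opNorm (X : Matrix (Fin 2) (Fin 2) ℂ) ≤ r) := by
    intro r hr
    rw [opNorm_le_iff hP hr, opNorm_le_iff hX hr, ← phiM_smul_one, ← phiM_add, ← phiM_sub]
    have hH : (r • (1 : Matrix (Fin 2) (Fin 2) ℂ)).IsHermitian := by
      unfold Matrix.IsHermitian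
      rw [Matrix.conjTranspose_smul, Matrix.conjTranspose_one]
      simp
    constructor
    · rintro ⟨h1, h2⟩
      exact ⟨posSemidef_of_phiM (hH.sub hX) h1, posSemidef_of_phiM (hH.add hX) h2⟩
    · rintro ⟨h1, h2⟩
      exact ⟨phiM_posSemidef h1, phiM_posSemidef h2⟩
  exact le_antisymm ((key _ (opNorm_nonneg _)).2 le_rfl) ((key _ (opNorm_nonneg _)).1 le_rfl)

/-! ### Not a generalized CLP isometry -/

/-- Kernel vector of the value at the rank one matrix of `(1, z)`. -/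
noncomputable def vz (z : ℂ) : Fin 4 → ℂ :=
  ![-7 * conj z, 8 + 6 * (z * conj z), z * (8 * (z * conj z) + 6), -7 * z ^ 2]

theorem alg_A (r s : Fin 4 → ℂ)
    (hF : ∀ z : ℂ, r ⬝ᵥ vz z + conj z * (s ⬝ᵥ vz z) = 0) : r = 0 ∧ s = 0 := by
  have H : ∀ a b : ℝ, _ := fun a b => hF (⟨a, b⟩ : ℂ)
  simp only [dotProduct, Fin.sum_univ_four, vz, Complex.ext_iff] at H
  simp [Complex.add_re, Complex.mul_re, Complex.mul_im, pow_two] at H
  have h0 := H 0 0
  have h1 := H 1 0
  have h2 := H (-1) 0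
  have h3 := H 2 0
  have h4 := H (-2) 0
  have h5 := H 0 1
  have h6 := H 0 (-1)
  have h7 := H 0 2
  have h8 := H 0 (-2)
  have h9 := H 1 1
  ring_nf at h0 h1 h2 h3 h4 h5 h6 h7 h8 h9
  obtain ⟨a0, b0⟩ := h0
  obtain ⟨a1, b1⟩ := h1
  obtain ⟨a2, b2⟩ := h2
  obtain ⟨a3, b3⟩ := h3
  obtain ⟨a4, b4⟩ := h4
  obtain ⟨a5, b5⟩ := h5
  obtain ⟨a6, b6⟩ := h6
  obtain ⟨a7, b7⟩ := h7
  obtain ⟨a8, b8⟩ := h8
  obtain ⟨a9, b9⟩ := h9
  constructor
  · ext i
    fin_cases i <;> apply Complex.ext <;> simp <;> linarith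
  · ext i
    fin_cases i <;> apply Complex.ext <;> simp <;> linarith

theorem alg_B (r s : Fin 4 → ℂ)
    (hF : ∀ z : ℂ, r ⬝ᵥ vz z + z * (s ⬝ᵥ vz z) = 0) : r = 0 ∧ s = 0 := by
  have H : ∀ a b : ℝ, _ := fun a b => hF (⟨a, b⟩ : ℂ)
  simp only [dotProduct, Fin.sum_univ_four, vz, Complex.ext_iff] at H
  simp [Complex.add_re, Complex.mul_re, Complex.mul_im, pow_two] at H
  have h0 := H 0 0
  have h1 := H 1 0
  have h2 := H (-1) 0
  have h3 := H 2 0
  have h4 := H (-2) 0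
  have h5 := H 0 1
  have h6 := H 0 (-1)
  have h7 := H 0 2
  have h8 := H 0 (-2)
  have h9 := H 1 1
  ring_nf at h0 h1 h2 h3 h4 h5 h6 h7 h8 h9
  obtain ⟨a0, b0⟩ := h0
  obtain ⟨a1, b1⟩ := h1
  obtain ⟨a2, b2⟩ := h2
  obtain ⟨a3, b3⟩ := h3
  obtain ⟨a4, b4⟩ := h4
  obtain ⟨a5, b5⟩ := h5
  obtain ⟨a6, b6⟩ := h6
  obtain ⟨a7, b7⟩ := h7
  obtain ⟨a8, b8⟩ := h8
  obtain ⟨a9, b9⟩ := h9
  constructor
  · ext i
    fin_cases i <;> apply Complex.ext <;> simp <;> linarith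
  · ext i
    fin_cases i <;> apply Complex.ext <;> simp <;> linarith

theorem alg_C (r : Fin 4 → ℂ) (hF : ∀ z : ℂ, r ⬝ᵥ vz z = 0) : r = 0 :=
  (alg_A r 0 (fun z => by simp [hF z])).1

/-- The kernel of `phiM (k k*)`, `k = (1, z)`, is spanned by `vz z`. -/
theorem ker_phiM (z : ℂ) (w : Fin 4 → ℂ) (h : phiM (rk 1 z) *ᵥ w = 0) :
    ∀ i, (8 + 6 * (z * conj z)) * w i = w 1 * vz z i := by
  have e0 := congrFun h 0
  have e2 := congrFun h 2
  have e3 := congrFun h 3
  simp [phiM, rk, mulVec, dotProduct, Fin.sum_univ_four] at e0 e2 e3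
  have hne : (3 + 4 * (z * conj z) : ℂ) ≠ 0 := by
    have : (3 + 4 * (z * conj z) : ℂ) = ((3 + 4 * Complex.normSq z : ℝ) : ℂ) := by
      push_cast
      rw [Complex.normSq_eq_conj_mul_self]; ring
    rw [this]
    have := Complex.normSq_nonneg z
    exact_mod_cast (by positivity : (3 + 4 * Complex.normSq z : ℝ) ≠ 0)
  have f2 : (8 + 6 * (z * conj z)) * w 2 = w 1 * (z * (8 * (z * conj z) + 6)) := by
    linear_combination (8 / 3) * (3 + 4 * (z * conj z)) * e2 - (28 / 3) * conj z * e3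
  intro i
  fin_cases i
  · simp [vz]
    linear_combination 14 * e0
  · simp [vz]
    ring
  · simpa [vz] using f2
  · simp [vz]
    apply mul_left_cancel₀ hne
    linear_combination 7 * (8 + 6 * (z * conj z)) * e3 - (7 / 2) * z * f2

theorem blockMat_tensorVec {n ζ α β : ℕ} (X : Matrix (Fin n) (Fin n) ℂ)
    (Y : Matrix (Fin ζ) (Fin ζ) ℂ) (h : Fin n → ℂ) (h₁ : Fin α → ℂ) (h₂ : Fin β → ℂ)
    (hX : X *ᵥ h = 0) (hX' : Xᵀ *ᵥ (fun i => conj (h i)) = 0) :
    blockMat α β X Y *ᵥ tensorVec h h₁ h₂ = 0 := by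
  unfold blockMat
  rw [Matrix.fromBlocks_mulVec, Matrix.fromBlocks_mulVec]
  ext x
  rcases x with ⟨i, j⟩ | ⟨i, j⟩ | i
  · have := congrFun hX i
    simp only [mulVec, dotProduct, Pi.zero_apply] at this
    simp [mulVec, dotProduct, Fintype.sum_prod_type, Matrix.kroneckerMap_apply, tensorVec,
      Matrix.one_apply]
    have e : ∑ x, X i x * (h x * h₁ j) = (∑ x, X i x * h x) * h₁ j := by
      rw [Finset.sum_mul]; exact Finset.sum_congr rfl fun x _ => by ring
    rw [e, this, zero_mul]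
  · have := congrFun hX' i
    simp only [mulVec, dotProduct, Pi.zero_apply] at this
    simp [mulVec, dotProduct, Fintype.sum_prod_type, Matrix.kroneckerMap_apply, tensorVec,
      Matrix.one_apply]
    have e : ∑ x, X x i * (conj (h x) * h₂ j) = (∑ x, X x i * conj (h x)) * h₂ j := by
      rw [Finset.sum_mul]; exact Finset.sum_congr rfl fun x _ => by ring
    rw [e]
    simp only [Matrix.transpose_apply] at this
    rw [this, zero_mul]
  · simp [mulVec, dotProduct, tensorVec]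

theorem phi_not_CLP : ¬ IsGeneralizedCLP Phi := by
  rintro ⟨α, β, ζ, f, K, V, -, -, hK, hV, hr, hΦ⟩
  -- kernel vectors
  have main : ∀ z : ℂ, ∃ (c : ℂ) (h₁ : Fin α → ℂ) (h₂ : Fin β → ℂ), c ≠ 0 ∧
      c • (V *ᵥ vz z) = tensorVec ![-conj z, 1] h₁ h₂ := by
    intro z
    have hne : (![-conj z, 1] : Fin 2 → ℂ) ≠ 0 := fun h => by
      have := congrFun h 1
      simp at this
    obtain ⟨u, huK, hu0, h₁, h₂, hu⟩ := hK ![-conj z, 1] hne
    rw [← hr] at huK
    obtain ⟨w, hw⟩ := huK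
    have hw' : V *ᵥ w = u := hw
    have hker : phiM (rk 1 z) *ᵥ w = 0 := by
      have h1 := hΦ ⟨rk 1 z, by
        rw [selfAdjoint.mem_iff, Matrix.star_eq_conjTranspose]; exact rk_herm 1 z⟩
      rw [Phi_coe] at h1
      simp only at h1
      rw [h1, ← Matrix.mulVec_mulVec, ← Matrix.mulVec_mulVec, hw', hu, blockMat_tensorVec,
        Matrix.mulVec_zero]
      · ext i
        fin_cases i <;> simp [rk, mulVec, dotProduct, Fin.sum_univ_two]
      · ext i
        fin_cases i <;> simp [rk, mulVec, dotProduct, Fin.sum_univ_two, mul_comm]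
    have hv := ker_phiM z w hker
    have hD : (8 + 6 * (z * conj z) : ℂ) ≠ 0 := by
      have : (8 + 6 * (z * conj z) : ℂ) = ((8 + 6 * Complex.normSq z : ℝ) : ℂ) := by
        push_cast
        rw [Complex.normSq_eq_conj_mul_self]; ring
      rw [this]
      have := Complex.normSq_nonneg z
      exact_mod_cast (by positivity : (8 + 6 * Complex.normSq z : ℝ) ≠ 0)
    have hw1 : w 1 ≠ 0 := by
      intro h0
      apply hu0
      have : w = 0 := by
        ext i
        have := hv i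
        rw [h0, zero_mul] at this
        exact (mul_eq_zero.1 this).resolve_left hD
      rw [← hw', this, Matrix.mulVec_zero]
    refine ⟨w 1 / (8 + 6 * (z * conj z)), h₁, h₂, div_ne_zero hw1 hD, ?_⟩
    rw [← hu, ← hw', ← Matrix.mulVec_smul]
    congr 1
    ext i
    have := hv i
    rw [Pi.smul_apply, smul_eq_mul, div_mul_eq_mul_div, div_eq_iff hD, ← this, mul_comm]
  have rowA : ∀ j : Fin α, (fun c => V (Sum.inl (0, j)) c) = 0 ∧
      (fun c => V (Sum.inl (1, j)) c) = 0 := by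
    intro j
    apply alg_A
    intro z
    obtain ⟨c, h₁, h₂, hc, h⟩ := main z
    have a0 := congrFun h (Sum.inl (0, j))
    have a1 := congrFun h (Sum.inl (1, j))
    simp only [Pi.smul_apply, smul_eq_mul, tensorVec] at a0 a1
    simp only [mulVec] at a0 a1
    apply mul_left_cancel₀ hc
    simp at a0 a1
    linear_combination a0 + conj z * a1
  have rowB : ∀ j : Fin β, (fun c => V (Sum.inr (Sum.inl (0, j))) c) = 0 ∧
      (fun c => V (Sum.inr (Sum.inl (1, j))) c) = 0 := by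
    intro j
    apply alg_B
    intro z
    obtain ⟨c, h₁, h₂, hc, h⟩ := main z
    have a0 := congrFun h (Sum.inr (Sum.inl (0, j)))
    have a1 := congrFun h (Sum.inr (Sum.inl (1, j)))
    simp only [Pi.smul_apply, smul_eq_mul, tensorVec] at a0 a1
    simp only [mulVec] at a0 a1
    apply mul_left_cancel₀ hc
    simp at a0 a1
    linear_combination a0 + z * a1
  have rowC : ∀ i : Fin ζ, (fun c => V (Sum.inr (Sum.inr i)) c) = 0 := by
    intro i
    apply alg_C
    intro z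
    obtain ⟨c, h₁, h₂, hc, h⟩ := main z
    have a0 := congrFun h (Sum.inr (Sum.inr i))
    simp only [Pi.smul_apply, smul_eq_mul, tensorVec] at a0
    simp only [mulVec] at a0
    exact (mul_eq_zero.1 a0).resolve_left hc
  have hV0 : V = 0 := by
    ext x c
    rcases x with ⟨i, j⟩ | ⟨i, j⟩ | i
    · fin_cases i
      · exact congrFun (rowA j).1 c
      · exact congrFun (rowA j).2 c
    · fin_cases i
      · exact congrFun (rowB j).1 c
      · exact congrFun (rowB j).2 c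
    · exact congrFun (rowC i) c
  rw [hV0] at hV
  have := congrFun (congrFun hV 0) 0
  simp at this

/-- There is a unital positive linear isometry from the hermitian `2 × 2` matrices to the hermitian
`4 × 4` matrices that is not a generalized CLP isometry. -/
theorem result : ∃ Φ : Herm 2 →ₗ[ℝ] Herm 4,
    Unital Φ ∧ Positive Φ ∧ Isometric Φ ∧ ¬ IsGeneralizedCLP Φ :=
  ⟨Phi, phi_unital, phi_positive, phi_isometric, phi_not_CLP⟩

end Pool.Agent.Results.MP_2a866c_an.NotGeneralizedCLP
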